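import Pool.Agent.L7h31.CP.Stm

/-!
Project CP, parts UNI and COV.
-/

set_option autoImplicit false

namespace Pool.Agent.L7h65.CP

open Pool.Agent.L7h31.CP
open Pool.Agent.L7h31.CE (HS IsPolytope IsFace IsTiling Monohedral Isohedral corona CondB E mk hor ver
  S_DST)

theorem s_COV : S_COV := by
  intro r z
  refine ⟨⌊ver z⌋, fun a => ⌊lc ⌊ver z⌋ z a⌋, Int.floor_le _, (Int.lt_floor_add_one _).le,
    fun a => ⟨Int.floor_le _, (Int.lt_floor_add_one _).le⟩⟩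

theorem s_UNI (hP : S_PTS) (hD : S_DST) : S_UNI := by
  intro r i j ν μ h
  have key : ∀ (κ : ℝ) (x : Fin r → ℝ), 0 ≤ κ → κ ≤ 1 → (∀ a, 0 ≤ x a ∧ x a ≤ 1) →
      (j : ℝ) ≤ i + κ ∧ (i : ℝ) + κ ≤ j + 1 ∧
      ∀ a, (μ a : ℝ) ≤ (ν a + κ * (vz r i a : ℝ) + x a) - (i + κ - j) * (vz r j a : ℝ) ∧
        (ν a + κ * (vz r i a : ℝ) + x a) - (i + κ - j) * (vz r j a : ℝ) ≤ μ a + 1 := by
    intro κ x h0 h1 hx
    have h2 := hP r i ν κ x h0 h1 hx
    rw [h] at h2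
    obtain ⟨e1, e2, e3⟩ := h2
    obtain ⟨d1, d2⟩ := (hD r).1 (fun a => (ν a : ℝ) + κ * (vz r i a : ℝ) + x a) ((i : ℝ) + κ)
    rw [d2] at e1 e2
    refine ⟨e1, e2, fun a => ?_⟩
    have e4 := e3 a
    unfold lc at e4
    rw [d1 a, d2] at e4
    exact e4
  have k0 := key 0 (fun _ => 0) le_rfl zero_le_one (fun _ => ⟨le_rfl, zero_le_one⟩)
  have k1 := key 1 (fun _ => 0) zero_le_one le_rfl (fun _ => ⟨le_rfl, zero_le_one⟩)
  have k2 := key 0 (fun _ => 1) le_rfl zero_le_one (fun _ => ⟨zero_le_one, le_rfl⟩)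
  have hij : i = j := by
    have h1 : (j : ℝ) ≤ i := by linarith [k0.1]
    have h2 : (i : ℝ) ≤ j := by linarith [k1.2.1]
    have h3 : j ≤ i := by exact_mod_cast h1
    have h4 : i ≤ j := by exact_mod_cast h2
    omega
  subst hij
  refine ⟨rfl, funext fun a => ?_⟩
  have h1 := (k0.2.2 a).1
  have h2 := (k2.2.2 a).2
  have h3 : (μ a : ℝ) ≤ ν a := by linarith
  have h4 : (ν a : ℝ) ≤ μ a := by linarith
  have h5 : μ a ≤ ν a := by exact_mod_cast h3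
  have h6 : ν a ≤ μ a := by exact_mod_cast h4
  omega

end Pool.Agent.L7h65.CP
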